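import Mathlib.RingTheory.Polynomial.Cyclotomic.Expand
import Mathlib.Tactic.Ring
import Mathlib.Tactic.Linarith
import Mathlib.Tactic.IntervalCases
import Mathlib.Tactic.NormNum.Prime

/-! The two factors `A_t`, `B_{2 - t}` of the generating function of two standard `p q r`-sided dice. For
`(p, q, r) = (2, 3, 7)` and `t = (2, 2, 1, 1)` both have nonnegative coefficients, although `t` lies in the
set `S` of 34 tuples for which a negative coefficient was conjectured for all primes. -/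

namespace Pool.Agent.Results.MP_eda2d2_co.DiceFortyTwo

open Polynomial

/-- a tuple `(a, b, c, d)` of exponents -/
structure Tup where
  a : ℕ
  b : ℕ
  c : ℕ
  d : ℕ
  deriving DecidableEq

/-- `M_t = φ_{pqr} ^ d φ_{pq} ^ a φ_{pr} ^ b φ_{qr} ^ c` -/
noncomputable def M (p q r : ℕ) (t : Tup) : ℤ[X] :=
  cyclotomic (p * q * r) ℤ ^ t.d * cyclotomic (p * q) ℤ ^ t.a * cyclotomic (p * r) ℤ ^ t.b *
    cyclotomic (q * r) ℤ ^ t.c

/-- `A_t = x (φ_p φ_q) ^ 2 M_t` -/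
noncomputable def A (p q r : ℕ) (t : Tup) : ℤ[X] :=
  X * (cyclotomic p ℤ * cyclotomic q ℤ) ^ 2 * M p q r t

/-- `B_t = x φ_r ^ 2 M_t` -/
noncomputable def B (p q r : ℕ) (t : Tup) : ℤ[X] :=
  X * cyclotomic r ℤ ^ 2 * M p q r t

/-- the complementary tuple `(2 - a, 2 - b, 2 - c, 2 - d)` -/
def Tup.compl (t : Tup) : Tup := ⟨2 - t.a, 2 - t.b, 2 - t.c, 2 - t.d⟩

/-- the set of all tuples with entries in `{0, 1, 2}` -/
def cube : Finset Tup :=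
  (Finset.range 3 ×ˢ Finset.range 3 ×ˢ Finset.range 3 ×ˢ Finset.range 3).image
    (fun x => ⟨x.1, x.2.1, x.2.2.1, x.2.2.2⟩)

/-- the ten tuples for which both members of the pair always have nonnegative coefficients -/
def T : Finset Tup :=
  {⟨2, 0, 0, 0⟩, ⟨2, 1, 0, 1⟩, ⟨2, 0, 1, 1⟩, ⟨2, 1, 1, 1⟩} ∪
    cube.filter (fun t => t.a = 2 ∧ t.d = 2 ∧ 2 ≤ t.b + t.c)

/-- the set `S` of 34 tuples of the problem -/
def S : Finset Tup :=
  cube.filter (fun t => 2 + t.d ≤ t.a + t.b + t.c ∧ t.a + t.b + t.c ≤ 4 + t.d ∧ t ∉ T ∧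
    t ≠ ⟨1, 1, 1, 1⟩)

lemma card_T : T.card = 10 := by decide +kernel

lemma card_S : S.card = 34 := by decide +kernel

lemma cyc2 : cyclotomic 2 ℤ = X + 1 := by
  simp [cyclotomic_two]

lemma cyc3 : cyclotomic 3 ℤ = X ^ 2 + X + 1 := by
  simp [cyclotomic_three]

lemma cyc7 : cyclotomic 7 ℤ = 1 + X + X ^ 2 + X ^ 3 + X ^ 4 + X ^ 5 + X ^ 6 := by
  have : Fact (Nat.Prime 7) := ⟨by norm_num⟩
  rw [cyclotomic_prime]
  simp only [Finset.sum_range_succ, Finset.sum_range_zero]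
  ring

lemma cyc14 : cyclotomic 14 ℤ * cyclotomic 2 ℤ = X ^ 7 + 1 := by
  have h := cyclotomic_expand_eq_cyclotomic_mul (p := 7) (n := 2) (by norm_num) (by norm_num) ℤ
  rw [show 2 * 7 = 14 from rfl] at h
  rw [← h, cyc2]
  simp

lemma cyc6 : cyclotomic 6 ℤ * cyclotomic 3 ℤ = X ^ 4 + X ^ 2 + 1 := by
  have h := cyclotomic_expand_eq_cyclotomic_mul (p := 2) (n := 3) (by norm_num) (by norm_num) ℤ
  rw [show 3 * 2 = 6 from rfl] at h
  rw [← h, cyc3]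
  simp only [map_add, map_pow, expand_X, map_one]
  ring

lemma cyc21' : cyclotomic 21 ℤ * cyclotomic 3 ℤ = X ^ 14 + X ^ 7 + 1 := by
  have h := cyclotomic_expand_eq_cyclotomic_mul (p := 7) (n := 3) (by norm_num) (by norm_num) ℤ
  rw [show 3 * 7 = 21 from rfl] at h
  rw [← h, cyc3]
  simp only [map_add, map_pow, expand_X, map_one]
  ring

lemma cyc21 : cyclotomic 21 ℤ = 1 - X + X ^ 3 - X ^ 4 + X ^ 6 - X ^ 8 + X ^ 9 - X ^ 11 + X ^ 12 := by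
  have h : cyclotomic 21 ℤ * cyclotomic 3 ℤ =
      (1 - X + X ^ 3 - X ^ 4 + X ^ 6 - X ^ 8 + X ^ 9 - X ^ 11 + X ^ 12) * cyclotomic 3 ℤ := by
    rw [cyc21', cyc3]
    ring
  exact mul_right_cancel₀ (cyclotomic_ne_zero 3 ℤ) h

lemma cyc42 : cyclotomic 42 ℤ * cyclotomic 21 ℤ =
    1 - X ^ 2 + X ^ 6 - X ^ 8 + X ^ 12 - X ^ 16 + X ^ 18 - X ^ 22 + X ^ 24 := by
  have h := cyclotomic_expand_eq_cyclotomic_mul (p := 2) (n := 21) (by norm_num) (by norm_num) ℤ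
  rw [show 21 * 2 = 42 from rfl] at h
  rw [← h, cyc21]
  simp only [map_add, map_sub, map_pow, expand_X, map_one]
  ring

/-- `A_t` for `(2, 3, 7)` and `t = (2, 2, 1, 1)` -/
lemma A_eq : A 2 3 7 ⟨2, 2, 1, 1⟩ =
    X * (X ^ 7 + 1) ^ 2 * (X ^ 4 + X ^ 2 + 1) * (X ^ 28 + X ^ 14 + 1) := by
  have e : A 2 3 7 ⟨2, 2, 1, 1⟩ = X * (cyclotomic 14 ℤ * cyclotomic 2 ℤ) ^ 2 *
      (cyclotomic 6 ℤ * cyclotomic 3 ℤ) ^ 2 * (cyclotomic 42 ℤ * cyclotomic 21 ℤ) := by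
    simp only [A, M, show 2 * 3 * 7 = 42 from rfl, show 2 * 3 = 6 from rfl, show 2 * 7 = 14 from rfl,
      show 3 * 7 = 21 from rfl]
    ring
  rw [e, cyc14, cyc6, cyc42]
  ring

/-- `B_{2 - t}` for `(2, 3, 7)` and `t = (2, 2, 1, 1)` -/
lemma B_eq : B 2 3 7 ⟨0, 0, 1, 1⟩ =
    X + 2*X^2 + 2*X^3 + 2*X^4 + 2*X^5 + 2*X^6 + 3*X^7 + 2*X^8 + X^13 + 2*X^16 + 2*X^17 + 2*X^18 +
    3*X^19 + 2*X^20 + 2*X^21 + 2*X^22 + X^25 + 2*X^30 + 3*X^31 + 2*X^32 + 2*X^33 + 2*X^34 +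
    2*X^35 + 2*X^36 + X^37 := by
  have e : B 2 3 7 ⟨0, 0, 1, 1⟩ = X * cyclotomic 7 ℤ ^ 2 * (cyclotomic 42 ℤ * cyclotomic 21 ℤ) := by
    simp only [B, M, show 2 * 3 * 7 = 42 from rfl, show 2 * 3 = 6 from rfl, show 2 * 7 = 14 from rfl,
      show 3 * 7 = 21 from rfl]
    ring
  rw [e, cyc42, cyc7]
  ring

/-- a polynomial that comes from `ℕ[X]` has nonnegative coefficients -/
lemma coeff_nonneg (P : ℤ[X]) (Q : ℕ[X]) (h : P = Q.map (Nat.castRingHom ℤ)) (i : ℕ) :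
    0 ≤ P.coeff i := by
  rw [h, coeff_map]
  simp

/-- For `p = 2`, `q = 3`, `r = 7` and the tuple `t = (2, 2, 1, 1)` of `S` all coefficients of `A_t` and of
`B_{2 - t}` are nonnegative; so the statement that for all distinct primes and all `t ∈ S` one of the two
polynomials has a negative coefficient is false. -/
theorem result : ¬ ∀ p q r : ℕ, p.Prime → q.Prime → r.Prime → p ≠ q → p ≠ r → q ≠ r →
    ∀ t ∈ S, (∃ i : ℕ, (A p q r t).coeff i < 0) ∨ (∃ i : ℕ, (B p q r t.compl).coeff i < 0) := by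
  intro H
  have h := H 2 3 7 (by norm_num) (by norm_num) (by norm_num) (by norm_num) (by norm_num)
    (by norm_num) ⟨2, 2, 1, 1⟩ (by decide +kernel)
  have hA : ∀ i, 0 ≤ (A 2 3 7 ⟨2, 2, 1, 1⟩).coeff i := by
    refine coeff_nonneg _ (X * (X ^ 7 + 1) ^ 2 * (X ^ 4 + X ^ 2 + 1) * (X ^ 28 + X ^ 14 + 1)) ?_
    rw [A_eq]
    simp only [Polynomial.map_mul, Polynomial.map_pow, Polynomial.map_add, Polynomial.map_X,
      Polynomial.map_one]
  have hB : ∀ i, 0 ≤ (B 2 3 7 ⟨0, 0, 1, 1⟩).coeff i := by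
    refine coeff_nonneg _ (X + 2*X^2 + 2*X^3 + 2*X^4 + 2*X^5 + 2*X^6 + 3*X^7 + 2*X^8 + X^13 +
      2*X^16 + 2*X^17 + 2*X^18 + 3*X^19 + 2*X^20 + 2*X^21 + 2*X^22 + X^25 + 2*X^30 + 3*X^31 +
      2*X^32 + 2*X^33 + 2*X^34 + 2*X^35 + 2*X^36 + X^37) ?_
    rw [B_eq]
    simp only [Polynomial.map_mul, Polynomial.map_pow, Polynomial.map_add, Polynomial.map_X,
      Polynomial.map_ofNat]
  rcases h with ⟨i, hi⟩ | ⟨i, hi⟩
  · exact absurd (hA i) (not_le.mpr hi)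
  · exact absurd (hB i) (not_le.mpr hi)

end Pool.Agent.Results.MP_eda2d2_co.DiceFortyTwo
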